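import Mathlib

namespace Pool.Agent.Results.MP_ec2b5b_lc.Gap

open Finset

/-- Utility of a buyer with item value `v` for the lottery `o = (x, p)`. -/
def util (v : ℝ) (o : ℝ × ℝ) : ℝ := v * o.1 - o.2

/-- Payments of the utility-maximizing options of the type `(v, c)` facing the menu `M`:
declining (utility `c`, payment `0`) or a lottery of `M`. -/
def best (M : Finset (ℝ × ℝ)) (v c : ℝ) : Set ℝ :=
  {p | (p = 0 ∧ ∀ o ∈ M, util v o ≤ c) ∨
    ∃ o ∈ M, p = o.2 ∧ c ≤ util v o ∧ ∀ o' ∈ M, util v o' ≤ util v o}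

/-- The payment collected, ties broken in the seller's favour (a maximum of a finite nonempty set). -/
noncomputable def pay (M : Finset (ℝ × ℝ)) (v c : ℝ) : ℝ := sSup (best M v c)

lemma best_bdd (M : Finset (ℝ × ℝ)) (v c : ℝ) : BddAbove (best M v c) := by
  have h : best M v c ⊆ ↑(insert (0 : ℝ) (M.image Prod.snd)) := by
    intro p hp
    rcases hp with ⟨rfl, -⟩ | ⟨o, ho, rfl, -⟩
    · simp
    · simp only [coe_insert, coe_image, Set.mem_insert_iff, Set.mem_image, mem_coe]
      exact Or.inr ⟨o, ho, rfl⟩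
  exact (Finset.bddAbove _).mono h

lemma diag (P : ℝ) (hP : 0 ≤ P) (n : ℕ) :
    ∑ i ∈ range n, (if P ≤ 2 * 2 ^ (i + 1) then P / 2 ^ (i + 1) else 0) ≤
      max 0 (4 - P / 2 ^ n) := by
  induction n with
  | zero => simp
  | succ n ih =>
    rw [sum_range_succ]
    have h2 : (0 : ℝ) < 2 ^ (n + 1) := by positivity
    have e : P / 2 ^ n = 2 * (P / 2 ^ (n + 1)) := by
      rw [pow_succ]; field_simp
    have hq : 0 ≤ P / 2 ^ (n + 1) := by positivity
    split_ifs with h
    · have : P / 2 ^ (n + 1) ≤ 2 := by rw [div_le_iff₀ h2]; exact h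
      refine le_trans ?_ (le_max_right _ _)
      rcases le_total 0 (4 - P / 2 ^ n) with h' | h'
      · rw [max_eq_right h'] at ih; linarith
      · rw [max_eq_left h'] at ih; linarith
    · rw [add_zero]
      refine ih.trans (max_le_max le_rfl ?_)
      linarith

theorem result (C : ℝ) :
    ∃ (n : ℕ) (v f c g : ℕ → ℝ) (M : Finset (ℝ × ℝ)) (B : ℝ),
      (∀ i, 0 ≤ v i ∧ 0 ≤ f i ∧ 0 ≤ c i ∧ 0 ≤ g i) ∧
      ∑ i ∈ range n, f i = 1 ∧ ∑ j ∈ range n, g j = 1 ∧
      (∀ o ∈ M, 0 ≤ o.1 ∧ o.1 ≤ 1) ∧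
      (∀ P : ℝ, 0 ≤ P →
        P * ∑ i ∈ range n, ∑ j ∈ range n, f i * g j * (if c j ≤ v i - P then 1 else 0) ≤ B) ∧
      C * B < ∑ i ∈ range n, ∑ j ∈ range n, f i * g j * pay M (v i) (c j) := by
  obtain ⟨m, hm⟩ := exists_nat_gt (5 * C)
  set n := m + 1 with hn
  have hn0 : (0 : ℝ) < n := by positivity
  set K : ℝ := (n : ℝ) ^ 2 * 2 ^ n with hK
  have hn1 : (1 : ℝ) ≤ n := by rw [hn]; push_cast; linarith [(Nat.cast_nonneg m : (0 : ℝ) ≤ m)]
  have hK1 : 1 ≤ K := by
    have h1 : (1 : ℝ) ≤ (n : ℝ) ^ 2 := one_le_pow₀ hn1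
    have h2 : (1 : ℝ) ≤ 2 ^ n := one_le_pow₀ (by norm_num)
    rw [hK]; nlinarith
  have hK0 : 0 < K := by linarith
  set a : ℕ → ℝ := fun i => 2 ^ (i + 1) with ha
  have ha2 : ∀ i, 2 ≤ a i := fun i => by
    have h2 : (1 : ℝ) ≤ 2 ^ i := one_le_pow₀ (by norm_num)
    simp only [ha, pow_succ]; linarith
  have ha0 : ∀ i, 0 < a i := fun i => by linarith [ha2 i]
  set SF : ℝ := ∑ i ∈ range n, 1 / (a i * K ^ i) with hSF
  set SG : ℝ := ∑ j ∈ range n, K ^ j with hSG
  have hne : (range n).Nonempty := ⟨0, by simp [hn]⟩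
  have hSF0 : 0 < SF := sum_pos (fun i _ => by have := ha0 i; positivity) hne
  have hSG0 : 0 < SG := sum_pos (fun i _ => by positivity) hne
  set R : ℝ := 1 / (SF * SG) with hR
  have hR0 : 0 < R := by positivity
  have hfg : ∀ i j, 1 / (a i * K ^ i) / SF * (K ^ j / SG) = R * (K ^ j / K ^ i) / a i := by
    intro i j
    have := ha0 i
    rw [hR]; field_simp
  set M : Finset (ℝ × ℝ) := (range n).image (fun i => (1 - 1 / a i, a i)) with hM
  refine ⟨n, fun i => a i ^ 2, fun i => 1 / (a i * K ^ i) / SF, fun i => a i ^ 2 - 2 * a i,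
    fun j => K ^ j / SG, M, 5 * R, ?_, ?_, ?_, ?_, ?_, ?_⟩
  · intro i
    have := ha0 i
    have := ha2 i
    refine ⟨by positivity, by positivity, by nlinarith, by positivity⟩
  · rw [← sum_div, ← hSF, div_self hSF0.ne']
  · rw [← sum_div, ← hSG, div_self hSG0.ne']
  · intro o ho
    obtain ⟨i, -, rfl⟩ := mem_image.1 ho
    have := ha0 i
    have h1 : 1 / a i ≤ 1 := by rw [div_le_one this]; linarith [ha2 i]
    have h2 : 0 ≤ 1 / a i := by positivity
    constructor <;> simp only <;> linarith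
  · intro P hP
    simp only [hfg]
    have key : ∀ i ∈ range n, ∀ j ∈ range n,
        P * (R * (K ^ j / K ^ i) / a i * (if a j ^ 2 - 2 * a j ≤ a i ^ 2 - P then 1 else 0)) ≤
          R / (n : ℝ) ^ 2 +
            (if i = j then R * (if P ≤ 2 * 2 ^ (i + 1) then P / 2 ^ (i + 1) else 0) else 0) := by
      intro i hi j hj
      have hai := ha0 i
      have hRn : 0 ≤ R / (n : ℝ) ^ 2 := by positivity
      by_cases hc : a j ^ 2 - 2 * a j ≤ a i ^ 2 - P
      swap
      · rw [if_neg hc]
        have : 0 ≤ (if i = j then R * (if P ≤ 2 * 2 ^ (i + 1) then P / 2 ^ (i + 1) else 0)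
            else 0) := by
          split_ifs <;> positivity
        simp only [mul_zero]; linarith
      rw [if_pos hc, mul_one]
      rcases lt_trichotomy i j with h | h | h
      · rw [if_neg h.ne]
        have h1 : 2 * a i ≤ a j := by
          simp only [ha]
          rw [← pow_succ']
          exact pow_le_pow_right₀ (by norm_num) (by omega)
        have h2 := ha2 i
        have hP0 : P = 0 := by
          apply le_antisymm _ hP
          nlinarith
        rw [hP0]; simp only [zero_mul, add_zero]; exact hRn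
      · subst h
        have h1 : P ≤ 2 * 2 ^ (i + 1) := by
          have : P ≤ 2 * a i := by linarith
          simpa [ha] using this
        rw [if_pos rfl, if_pos h1, div_self (by positivity)]
        have : P * (R * 1 / a i) = R * (P / 2 ^ (i + 1)) := by
          simp only [ha]; ring
        linarith
      · rw [if_neg h.ne', add_zero]
        have h2 := ha2 j
        have h1 : P ≤ a i ^ 2 := by nlinarith
        have h3 : K ^ j / K ^ i ≤ 1 / K := by
          rw [div_le_div_iff₀ (by positivity) hK0, one_mul, ← pow_succ]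
          exact pow_le_pow_right₀ hK1 (by omega)
        have h4 : a i ≤ 2 ^ n := by
          simp only [ha]
          exact pow_le_pow_right₀ (by norm_num) (by have := mem_range.1 hi; omega)
        calc P * (R * (K ^ j / K ^ i) / a i) ≤ a i ^ 2 * (R * (1 / K) / a i) := by gcongr
          _ = a i * (R / K) := by field_simp
          _ ≤ 2 ^ n * (R / K) := by gcongr
          _ = R / (n : ℝ) ^ 2 := by rw [hK]; field_simp
    have hd := diag P hP n
    have hd4 : max 0 (4 - P / 2 ^ n) ≤ (4 : ℝ) := by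
      have : 0 ≤ P / 2 ^ n := by positivity
      exact max_le (by norm_num) (by linarith)
    simp only [mul_sum]
    refine (sum_le_sum fun i hi => sum_le_sum fun j hj => key i hi j hj).trans ?_
    simp only [sum_add_distrib, sum_const, card_range, nsmul_eq_mul, sum_ite_eq]
    have e1 : (n : ℝ) * (n * (R / (n : ℝ) ^ 2)) = R := by field_simp
    have e2 : ∑ i ∈ range n, (if i ∈ range n then
        R * (if P ≤ 2 * 2 ^ (i + 1) then P / 2 ^ (i + 1) else 0) else 0) =
        R * ∑ i ∈ range n, (if P ≤ 2 * 2 ^ (i + 1) then P / 2 ^ (i + 1) else 0) := by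
      rw [mul_sum]
      exact sum_congr rfl fun i hi => by rw [if_pos hi]
    rw [e1, e2]
    nlinarith
  · simp only [hfg]
    have hpay0 : ∀ v c, 0 ≤ pay M v c := by
      intro v c
      apply Real.sSup_nonneg
      rintro p (⟨rfl, -⟩ | ⟨o, ho, rfl, -⟩)
      · exact le_rfl
      · obtain ⟨i, -, rfl⟩ := mem_image.1 ho
        exact (ha0 i).le
    have hpay : ∀ i ∈ range n, a i ≤ pay M (a i ^ 2) (a i ^ 2 - 2 * a i) := by
      intro i hi
      have hai := ha0 i
      have hu : util (a i ^ 2) (1 - 1 / a i, a i) = a i ^ 2 - 2 * a i := by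
        simp only [util]; field_simp; ring
      apply le_csSup (best_bdd _ _ _)
      refine Or.inr ⟨(1 - 1 / a i, a i), mem_image.2 ⟨i, hi, rfl⟩, rfl, hu.ge, ?_⟩
      intro o ho
      obtain ⟨j, -, rfl⟩ := mem_image.1 ho
      have haj := ha0 j
      rw [hu]
      have : a i ^ 2 - 2 * a i - util (a i ^ 2) (1 - 1 / a j, a j) = (a i - a j) ^ 2 / a j := by
        simp only [util]; field_simp; ring
      have h2 : 0 ≤ (a i - a j) ^ 2 / a j := by positivity
      linarith
    have key : ∀ i ∈ range n, R ≤ ∑ j ∈ range n,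
        R * (K ^ j / K ^ i) / a i * pay M (a i ^ 2) (a j ^ 2 - 2 * a j) := by
      intro i hi
      have hai := ha0 i
      refine le_trans ?_ (single_le_sum (f := fun j =>
        R * (K ^ j / K ^ i) / a i * pay M (a i ^ 2) (a j ^ 2 - 2 * a j)) (fun j _ => ?_) hi)
      · rw [div_self (by positivity)]
        calc R = R * 1 / a i * a i := by field_simp
          _ ≤ _ := by gcongr; exact hpay i hi
      · have := hpay0 (a i ^ 2) (a j ^ 2 - 2 * a j)
        positivity
    refine lt_of_lt_of_le ?_ (sum_le_sum key)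
    simp only [sum_const, card_range, nsmul_eq_mul]
    have : 5 * C < n := by rw [hn]; push_cast; linarith
    nlinarith

end Pool.Agent.Results.MP_ec2b5b_lc.Gap
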